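import Mathlib

set_option autoImplicit false

namespace Pool.Agent.Results.MP_0f5321_co.No

/-- Cells of the board. -/
abbrev Cell := ℤ × ℤ

/-- Squared Euclidean distance of two cells. -/
def d2 (p q : Cell) : ℤ := (p.1 - q.1) ^ 2 + (p.2 - q.2) ^ 2

/-- A finite polyomino: a finite nonempty set of cells, connected through edge-adjacent cells. -/
def IsPoly (P : Set Cell) : Prop :=
  P.Finite ∧ P.Nonempty ∧ ∀ u ∈ P, ∀ v ∈ P, ∃ (n : ℕ) (f : ℕ → Cell),
    f 0 = u ∧ f n = v ∧ (∀ i ≤ n, f i ∈ P) ∧ ∀ i < n, d2 (f i) (f (i + 1)) = 1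

/-- `P` is an ancestor of `Q`: a congruent copy of `P` lies inside `Q`. -/
def Anc (P Q : Set Cell) : Prop :=
  ∃ g : Cell → Cell, (∀ p q, d2 (g p) (g q) = d2 p q) ∧ g '' P ⊆ Q

/-- The cell the maker marks in round `n` under the strategy `σ` when the breaker marks the two
cells `β i` in round `i`. -/
def mv (σ : List (Cell × Cell) → Cell) (β : ℕ → Cell × Cell) (n : ℕ) : Cell :=
  σ ((List.range n).map β)

/-- The maker has a winning strategy in the weak `(1,2)` game for `T`: against every legal play of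
the breaker his moves are legal and after finitely many rounds contain a copy of a member of `T`. -/
def MakerWins (T : Set (Set Cell)) : Prop :=
  ∃ σ : List (Cell × Cell) → Cell, ∀ β : ℕ → Cell × Cell,
    (∀ n, (β n).1 ≠ (β n).2 ∧ (∀ i ≤ n, (β n).1 ≠ mv σ β i ∧ (β n).2 ≠ mv σ β i) ∧
      ∀ i < n, (β n).1 ≠ (β i).1 ∧ (β n).1 ≠ (β i).2 ∧ (β n).2 ≠ (β i).1 ∧ (β n).2 ≠ (β i).2) →
    (∀ n, ∀ i < n, mv σ β n ≠ mv σ β i ∧ mv σ β n ≠ (β i).1 ∧ mv σ β n ≠ (β i).2) ∧
      ∃ n, ∃ P ∈ T, Anc P (mv σ β '' Set.Iic n)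

lemma Anc.trans {P Q R : Set Cell} : Anc P Q → Anc Q R → Anc P R := by
  rintro ⟨g, hg, h1⟩ ⟨k, hk, h2⟩
  refine ⟨k ∘ g, fun p q => by simp [hk, hg], ?_⟩
  rw [Set.image_comp]
  exact (Set.image_mono h1).trans h2

lemma IsPoly.image {P : Set Cell} (h : IsPoly P) {g : Cell → Cell}
    (hg : ∀ p q, d2 (g p) (g q) = d2 p q) : IsPoly (g '' P) := by
  refine ⟨h.1.image g, h.2.1.image g, ?_⟩
  rintro _ ⟨u, hu, rfl⟩ _ ⟨v, hv, rfl⟩
  obtain ⟨n, f, h0, hn, h1, h2⟩ := h.2.2 u hu v hv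
  exact ⟨n, g ∘ f, by simp [h0], by simp [hn], fun i hi => ⟨_, h1 i hi, rfl⟩,
    fun i hi => (hg _ _).trans (h2 i hi)⟩

lemma adj_cases {p q : Cell} (h : d2 p q = 1) :
    (q.1 = p.1 + 1 ∧ q.2 = p.2) ∨ (q.1 = p.1 - 1 ∧ q.2 = p.2) ∨
      (q.1 = p.1 ∧ q.2 = p.2 + 1) ∨ (q.1 = p.1 ∧ q.2 = p.2 - 1) := by
  unfold d2 at h
  generalize hx : p.1 - q.1 = x at h
  generalize hy : p.2 - q.2 = y at h
  have h1 : -1 ≤ x := by nlinarith [sq_nonneg y]
  have h2 : x ≤ 1 := by nlinarith [sq_nonneg y]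
  have h3 : -1 ≤ y := by nlinarith [sq_nonneg x]
  have h4 : y ≤ 1 := by nlinarith [sq_nonneg x]
  interval_cases x <;> interval_cases y <;> simp at h <;> omega

lemma IsPoly.const {P : Set Cell} (h : IsPoly P) {α : Sort*} (φ : Cell → α)
    (hφ : ∀ a ∈ P, ∀ b ∈ P, d2 a b = 1 → φ a = φ b) : ∀ u ∈ P, ∀ v ∈ P, φ u = φ v := by
  intro u hu v hv
  obtain ⟨n, f, rfl, rfl, h1, h2⟩ := h.2.2 u hu v hv
  have : ∀ i ≤ n, φ (f 0) = φ (f i) := by
    intro i
    induction i with
    | zero => exact fun _ => rfl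
    | succ i ih => exact fun hi => (ih (by omega)).trans (hφ _ (h1 _ (by omega)) _ (h1 _ hi) (h2 _ hi))
  exact this n le_rfl

lemma reply (S : Finset Cell) (x y : Cell) : ∃ b : Cell × Cell, b.1 ≠ b.2 ∧ b.1 ∉ S ∧ b.2 ∉ S ∧
    (x ∈ S ∨ x = b.1 ∨ x = b.2) ∧ (y ∈ S ∨ y = b.1 ∨ y = b.2) := by
  obtain ⟨z, hz⟩ := Infinite.exists_notMem_finset (insert x (insert y S))
  obtain ⟨w, hw⟩ := Infinite.exists_notMem_finset (insert z S)
  simp only [Finset.mem_insert, not_or] at hz hw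
  by_cases hx : x ∈ S <;> by_cases hy : y ∈ S
  · exact ⟨(w, z), hw.1, hw.2, hz.2.2, .inl hx, .inl hy⟩
  · exact ⟨(z, y), hz.2.1, hz.2.2, hy, .inl hx, .inr (.inr rfl)⟩
  · exact ⟨(z, x), hz.1, hz.2.2, hx, .inr (.inr rfl), .inl hy⟩
  · by_cases e : x = y
    · exact ⟨(z, x), hz.1, hz.2.2, hx, .inr (.inr rfl), .inr (.inr e.symm)⟩
    · exact ⟨(x, y), e, hx, hy, .inr (.inl rfl), .inr (.inr rfl)⟩

/-- The pairing strategy of the breaker. -/
lemma pairing {T : Set (Set Cell)} (hP : ∀ P ∈ T, IsPoly P) (R : Cell → Cell → Prop)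
    (hs : ∀ a b, R a b → R b a) (hi : ∀ a, ¬ R a a)
    (h2 : ∀ c, ∃ p q, ∀ d, R c d → d = p ∨ d = q)
    (hT : ∀ Q, IsPoly Q → (∀ a ∈ Q, ∀ b ∈ Q, ¬ R a b) → ∀ P ∈ T, ¬ Anc P Q) : ¬ MakerWins T := by
  rintro ⟨σ, hσ⟩
  choose p q hpq using h2
  choose τ t1 t2 t3 t4 t5 using reply
  let nx : List (Cell × Cell) × Finset Cell → Cell × Cell := fun s =>
    τ (insert (σ s.1) s.2) (p (σ s.1)) (q (σ s.1))
  let st : ℕ → List (Cell × Cell) × Finset Cell := fun n => Nat.rec ([], ∅)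
    (fun _ s => (s.1 ++ [nx s], insert (nx s).1 (insert (nx s).2 (insert (σ s.1) s.2)))) n
  let β : ℕ → Cell × Cell := fun n => nx (st n)
  have e1 : ∀ n, (st n).1 = (List.range n).map β := by
    intro n
    induction n with
    | zero => rfl
    | succ n ih => rw [List.range_succ, List.map_append, ← ih]; rfl
  have e2 : ∀ n, σ (st n).1 = mv σ β n := fun n => by rw [e1]; rfl
  have e3 : ∀ n x, x ∈ (st n).2 ↔ ∃ i < n, x = mv σ β i ∨ x = (β i).1 ∨ x = (β i).2 := by
    intro n x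
    induction n with
    | zero => simp [st]
    | succ n ih =>
      have : (st (n + 1)).2 = insert (β n).1 (insert (β n).2 (insert (σ (st n).1) (st n).2)) := rfl
      rw [this, e2]
      simp only [Finset.mem_insert, ih, Nat.lt_succ_iff_lt_or_eq]
      constructor
      · rintro (h | h | h | ⟨i, hi, h⟩)
        exacts [⟨n, .inr rfl, by tauto⟩, ⟨n, .inr rfl, by tauto⟩, ⟨n, .inr rfl, by tauto⟩,
          ⟨i, .inl hi, h⟩]
      · rintro ⟨i, hi | rfl, h⟩
        · exact .inr (.inr (.inr ⟨i, hi, h⟩))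
        · tauto
  have e4 : ∀ n, β n = τ (insert (mv σ β n) (st n).2) (p (mv σ β n)) (q (mv σ β n)) := fun n => by
    rw [← e2]
  obtain ⟨hl, n, P, hPT, g, hg, hsub⟩ := hσ β (fun n => by
    have a1 := t1 (insert (mv σ β n) (st n).2) (p (mv σ β n)) (q (mv σ β n))
    have a2 := t2 (insert (mv σ β n) (st n).2) (p (mv σ β n)) (q (mv σ β n))
    have a3 := t3 (insert (mv σ β n) (st n).2) (p (mv σ β n)) (q (mv σ β n))
    rw [← e4] at a1 a2 a3
    simp only [Finset.mem_insert, e3, not_or, not_exists, not_and] at a2 a3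
    refine ⟨a1, fun i hi => ?_, fun i hi => ?_⟩
    · rcases hi.eq_or_lt with rfl | hi
      exacts [⟨a2.1, a3.1⟩, ⟨(a2.2 i hi).1, (a3.2 i hi).1⟩]
    · exact ⟨(a2.2 i hi).2.1, (a2.2 i hi).2.2, (a3.2 i hi).2.1, (a3.2 i hi).2.2⟩)
  have key : ∀ i j, i < j → ¬ R (mv σ β i) (mv σ β j) := by
    intro i j hij h
    have a4 := t4 (insert (mv σ β i) (st i).2) (p (mv σ β i)) (q (mv σ β i))
    have a5 := t5 (insert (mv σ β i) (st i).2) (p (mv σ β i)) (q (mv σ β i))
    rw [← e4] at a4 a5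
    have : mv σ β j ∈ insert (mv σ β i) (st i).2 ∨ mv σ β j = (β i).1 ∨ mv σ β j = (β i).2 := by
      rcases hpq _ _ h with e | e <;> rw [e] <;> assumption
    simp only [Finset.mem_insert, e3] at this
    have b := hl j i hij
    rcases this with (e | ⟨k, hk, e⟩) | e
    · exact b.1 e
    · have := hl j k (by omega); tauto
    · tauto
  refine hT _ ((hP P hPT).image hg) (fun a ha b hb h => ?_) P hPT ⟨g, hg, le_rfl⟩
  obtain ⟨i, -, rfl⟩ := hsub ha
  obtain ⟨j, -, rfl⟩ := hsub hb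
  rcases lt_trichotomy i j with l | rfl | l
  exacts [key _ _ l h, hi _ h, key _ _ l (hs _ _ h)]

/-- The U-shaped polyomino with base of `m + 1` cells. -/
def U (m : ℤ) : Set Cell :=
  {p | (p.2 = 0 ∧ 0 ≤ p.1 ∧ p.1 ≤ m) ∨ (p.2 = 1 ∧ (p.1 = 0 ∨ p.1 = m))}

lemma caseU {T : Set (Set Cell)} (hP : ∀ P ∈ T, IsPoly P) {m : ℤ} (hm : 1 ≤ m)
    (h : ∀ P ∈ T, ¬ Anc P (U m)) : ¬ MakerWins T := by
  obtain ⟨r, r0, r1, r2, r3⟩ : ∃ r : ℤ → ℤ, (∀ x, 0 ≤ r x) ∧ (∀ x, r x ≤ m) ∧
      (∀ x, r x = m → r (x + 1) = 0) ∧ ∀ x, r x ≠ m → r (x + 1) = r x + 1 := by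
    have a : ∀ x : ℤ, 0 ≤ x % (m + 1) := fun x => Int.emod_nonneg _ (by omega)
    have b : ∀ x : ℤ, x % (m + 1) < m + 1 := fun x => Int.emod_lt_of_pos _ (by omega)
    refine ⟨fun x => x % (m + 1), a, fun x => Int.lt_add_one_iff.1 (b x), fun x e => ?_,
      fun x e => ?_⟩
    · beta_reduce at e ⊢
      rw [← Int.emod_add_emod, e, Int.emod_self]
    · beta_reduce at e ⊢
      rw [← Int.emod_add_emod]
      exact Int.emod_eq_of_lt (by have := a x; omega) (by have := b x; omega)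
  refine pairing hP (fun a b => (b.1 = a.1 + 1 ∧ b.2 = a.2 ∧ r a.1 = m) ∨
    (a.1 = b.1 + 1 ∧ b.2 = a.2 ∧ r b.1 = m) ∨ (a.1 = b.1 ∧ (b.2 = a.2 + 1 ∨ a.2 = b.2 + 1) ∧
      (a.2 / 2 ≠ b.2 / 2 ∨ (r a.1 ≠ 0 ∧ r a.1 ≠ m)))) ?_ (fun a => by omega) ?_ ?_
  · rintro a b (h | h | ⟨h1, h2, h3⟩)
    · omega
    · omega
    · rw [← h1]; omega
  · intro c
    by_cases h0 : r c.1 = 0
    · refine ⟨(c.1 - 1, c.2), (c.1, if c.2 % 2 = 0 then c.2 - 1 else c.2 + 1), fun d hd => ?_⟩
      simp only [Prod.ext_iff]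
      split_ifs <;> omega
    by_cases h1 : r c.1 = m
    · refine ⟨(c.1 + 1, c.2), (c.1, if c.2 % 2 = 0 then c.2 - 1 else c.2 + 1), fun d hd => ?_⟩
      simp only [Prod.ext_iff]
      have := r2 d.1
      rcases hd with hd | hd | hd
      · omega
      · rw [← hd.1] at this; omega
      · split_ifs <;> omega
    · refine ⟨(c.1, c.2 + 1), (c.1, c.2 - 1), fun d hd => ?_⟩
      simp only [Prod.ext_iff]
      have := r2 d.1
      rcases hd with hd | hd | hd
      · omega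
      · rw [← hd.1] at this; omega
      · omega
  intro Q hQ hR P hPT hA
  refine h P hPT (hA.trans ?_)
  have step : ∀ a ∈ Q, ∀ b ∈ Q, d2 a b = 1 →
      (b.1 = a.1 + 1 ∧ b.2 = a.2 ∧ r b.1 = r a.1 + 1) ∨
      (a.1 = b.1 + 1 ∧ b.2 = a.2 ∧ r a.1 = r b.1 + 1) ∨
      (a.1 = b.1 ∧ r a.1 = r b.1 ∧ a.2 / 2 = b.2 / 2 ∧ (r a.1 = 0 ∨ r a.1 = m)) := by
    intro a ha b hb hab
    have n := hR a ha b hb
    have s1 := r3 a.1
    have s2 := r3 b.1
    rcases adj_cases hab with e | e | e | e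
    · rw [← e.1] at s1; omega
    · rw [show b.1 + 1 = a.1 by omega] at s2; omega
    · rw [e.1]; omega
    · rw [e.1]; omega
  obtain ⟨u, hu⟩ := hQ.2.1
  have c1 := hQ.const (fun a => (a.1 - r a.1, a.2 / 2)) (fun a ha b hb hab => by
    have := step a ha b hb hab
    simp only [Prod.ext_iff]; omega) u hu
  simp only [Prod.ext_iff] at c1
  generalize u.1 - r u.1 = b0 at c1
  generalize u.2 / 2 = k0 at c1
  by_cases hA : ∀ a ∈ Q, a.2 = 2 * k0 + 1 → r a.1 = 0 ∨ r a.1 = m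
  · refine ⟨fun a => (a.1 - b0, a.2 - 2 * k0), fun p q => by simp only [d2]; ring, ?_⟩
    rintro _ ⟨a, ha, rfl⟩
    have := hA a ha; have := c1 a ha; have := r0 a.1; have := r1 a.1
    simp only [U, Set.mem_ofPred_eq]; omega
  by_cases hB : ∀ a ∈ Q, a.2 = 2 * k0 → r a.1 = 0 ∨ r a.1 = m
  · refine ⟨fun a => (a.1 - b0, 2 * k0 + 1 - a.2), fun p q => by simp only [d2]; ring, ?_⟩
    rintro _ ⟨a, ha, rfl⟩
    have := hB a ha; have := c1 a ha; have := r0 a.1; have := r1 a.1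
    simp only [U, Set.mem_ofPred_eq]; omega
  exfalso
  push Not at hA hB
  obtain ⟨a, ha, a1, a2, a3⟩ := hA
  obtain ⟨b, hb, b1, b2, b3⟩ := hB
  have hm2 : 2 ≤ m := by have := r0 a.1; have := r1 a.1; omega
  have col : ∀ c ∈ Q, r c.1 ≠ 0 → r c.1 ≠ m → ((c.1, 2 * k0 + 1) ∈ Q ↔ c.2 = 2 * k0 + 1) := by
    intro c hc n0 n1
    refine ⟨fun t => ?_, fun t => by rw [← t]; exact hc⟩
    have z := hR c hc _ t
    have := c1 c hc
    by_contra w
    exact z (.inr (.inr ⟨rfl, .inl (by dsimp only; omega), .inr ⟨n0, n1⟩⟩))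
  have c2 := hQ.const (fun c => if r c.1 = 0 then (b0 + 1, 2 * k0 + 1) ∈ Q else
      if r c.1 = m then (b0 + m - 1, 2 * k0 + 1) ∈ Q else c.2 = 2 * k0 + 1)
    (fun c hc d hd hcd => by
      have s := step c hc d hd hcd
      have := c1 c hc; have := c1 d hd
      have := r0 c.1; have := r1 c.1; have := r0 d.1; have := r1 d.1
      have kc := col c hc; have kd := col d hd
      beta_reduce
      split_ifs with x1 x2 x3 x4 x5 x6 x7 x8 <;> first
        | rfl
        | omega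
        | (rw [show b0 + 1 = d.1 by omega]; exact propext (kd (by omega) (by omega)))
        | (rw [show b0 + m - 1 = d.1 by omega]; exact propext (kd (by omega) (by omega)))
        | (rw [show b0 + 1 = c.1 by omega]; exact propext (kc (by omega) (by omega)).symm)
        | (rw [show b0 + m - 1 = c.1 by omega]; exact propext (kc (by omega) (by omega)).symm)
        | (rw [show d.2 = c.2 by omega])) a ha b hb
  simp only [a2, a3, b2, b3, if_false, a1, b1] at c2
  simp at c2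

/-- The cells of the monotone path `X` between the antidiagonals `-L` and `L`. -/
def path (X : ℤ → ℤ) (L : ℤ) : Set Cell := {p | |p.1 + p.2| ≤ L ∧ p.1 = X (p.1 + p.2)}

lemma casePath {T : Set (Set Cell)} (hP : ∀ P ∈ T, IsPoly P) {X : ℤ → ℤ}
    (hX : ∀ s, X (s + 1) = X s ∨ X (s + 1) = X s + 1)
    (h : ∀ P ∈ T, ∀ L, ¬ Anc P (path X L)) : ¬ MakerWins T := by
  refine pairing hP (fun a b => d2 a b = 1 ∧ a.1 - X (a.1 + a.2) ≠ b.1 - X (b.1 + b.2))
    (fun a b h => ⟨by rw [← h.1]; unfold d2; ring, h.2.symm⟩) (fun a h => h.2 rfl) ?_ ?_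
  · intro c
    refine ⟨if X (c.1 + c.2 + 1) = X (c.1 + c.2) then (c.1 + 1, c.2) else (c.1, c.2 + 1),
      if X (c.1 + c.2) = X (c.1 + c.2 - 1) then (c.1 - 1, c.2) else (c.1, c.2 - 1), fun d hd => ?_⟩
    have h1 := hX (c.1 + c.2)
    have h2 := hX (c.1 + c.2 - 1)
    rw [sub_add_cancel] at h2
    obtain ⟨h3, h4⟩ := hd
    rcases adj_cases h3 with e | e | e | e
    · rw [show d.1 + d.2 = c.1 + c.2 + 1 by omega] at h4
      split_ifs <;> simp only [Prod.ext_iff] <;> omega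
    · rw [show d.1 + d.2 = c.1 + c.2 - 1 by omega] at h4
      split_ifs <;> simp only [Prod.ext_iff] <;> omega
    · rw [show d.1 + d.2 = c.1 + c.2 + 1 by omega] at h4
      split_ifs <;> simp only [Prod.ext_iff] <;> omega
    · rw [show d.1 + d.2 = c.1 + c.2 - 1 by omega] at h4
      split_ifs <;> simp only [Prod.ext_iff] <;> omega
  intro Q hQ hR P hPT hA
  obtain ⟨u, hu⟩ := hQ.2.1
  have c1 := hQ.const (fun a => a.1 - X (a.1 + a.2)) (fun a ha b hb hab => by
    by_contra w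
    exact hR a ha b hb ⟨hab, w⟩) u hu
  obtain ⟨L, hL⟩ := (hQ.1.image fun a => |a.1 + a.2|).bddAbove
  refine h P hPT L (hA.trans ⟨fun a => (a.1 - (u.1 - X (u.1 + u.2)), a.2 + (u.1 - X (u.1 + u.2))),
    fun p q => by simp only [d2]; ring, ?_⟩)
  rintro _ ⟨a, ha, rfl⟩
  have := c1 a ha
  simp only [path, Set.mem_ofPred_eq, sub_add_add_cancel]
  exact ⟨hL ⟨a, ha, rfl⟩, by omega⟩

/-- The four unit steps. -/
def unit (e : Cell) : Prop := e = (1, 0) ∨ e = (-1, 0) ∨ e = (0, 1) ∨ e = (0, -1)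

lemma iso {a b : Cell} (ha : unit a) (hb : unit b) (h1 : b ≠ a) (h2 : b ≠ -a) (v p q : Cell) :
    d2 (v + p.1 • a + p.2 • b) (v + q.1 • a + q.2 • b) = d2 p q := by
  rcases ha with rfl | rfl | rfl | rfl <;> rcases hb with rfl | rfl | rfl | rfl <;>
    first
    | exact absurd rfl h1
    | exact absurd rfl h2
    | (simp [d2]; try ring)

lemma geo {A : Set Cell} (hA : IsPoly A) {u v : Cell} (hu : u ∈ A) (hv : v ∈ A) (L : ℕ)
    (hd : (2 * L : ℤ) ^ 2 < d2 u v) : (∃ m : ℤ, 1 ≤ m ∧ m ≤ 2 * L ∧ Anc (U m) A) ∨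
      ∃ X : ℤ → ℤ, X 0 = 0 ∧ (∀ s, X (s + 1) = X s ∨ X (s + 1) = X s + 1) ∧ Anc (path X L) A := by
  classical
  have ex := hA.2.2 u hu v hv
  obtain ⟨f, f0, fn, fA, fa⟩ := Nat.find_spec ex
  have hmin := fun k => @Nat.find_min _ _ ex k
  generalize Nat.find ex = n at *
  have hn : 2 * L ≤ n := by
    have : ∀ i ≤ n, |u.1 - (f i).1| + |u.2 - (f i).2| ≤ i := by
      intro i
      induction i with
      | zero => simp [f0]
      | succ i ih =>
        intro hi
        have := ih (by omega)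
        have := adj_cases (fa i hi)
        simp only [abs_eq_max_neg] at *
        push_cast
        omega
    have h1 := this n le_rfl
    rw [fn] at h1
    unfold d2 at hd
    rw [← sq_abs (u.1 - v.1), ← sq_abs (u.2 - v.2)] at hd
    by_contra w
    have : (n : ℤ) < 2 * L := by omega
    have a := abs_nonneg (u.1 - v.1)
    have b := abs_nonneg (u.2 - v.2)
    nlinarith [mul_nonneg a b]
  obtain ⟨d, hdd⟩ : ∃ d : ℕ → Cell, ∀ i, f (i + 1) = f i + d i :=
    ⟨fun i => f (i + 1) - f i, fun i => (add_sub_cancel _ _).symm⟩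
  have du : ∀ i < n, unit (d i) := fun i hi => by
    have := adj_cases (fa i hi)
    rw [hdd] at this
    simp only [unit, Prod.ext_iff, Prod.fst_add, Prod.snd_add] at *
    omega
  by_cases hb : ∃ k i, i + k < 2 * L ∧ d (i + k) = -d i
  · left
    obtain ⟨i, hi, e⟩ := Nat.find_spec hb
    have hk := fun k => @Nat.find_min _ _ hb k
    generalize Nat.find hb = k at *
    push Not at hk
    have nn : ∀ a, unit a → a ≠ -a := by rintro a (rfl | rfl | rfl | rfl) <;> decide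
    have k0 : k ≠ 0 := by rintro rfl; exact nn _ (du i (by omega)) e
    have k1 : k ≠ 1 := by
      rintro rfl
      have e2 : f (i + 2) = f i := by rw [hdd, hdd, e]; abel
      refine hmin (n - 2) (by omega) ⟨fun j => if j ≤ i then f j else f (j + 2), by simp [f0], ?_,
        fun j hj => ?_, fun j hj => ?_⟩
      · beta_reduce
        split_ifs with c
        · rw [show n - 2 = i by omega, ← e2, show i + 2 = n by omega, fn]
        · rw [show n - 2 + 2 = n by omega, fn]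
      · beta_reduce
        split_ifs <;> exact fA _ (by omega)
      · beta_reduce
        split_ifs with c1 c2
        · exact fa _ (by omega)
        · rw [show j = i by omega, ← e2]; exact fa _ (by omega)
        · omega
        · exact fa _ (by omega)
    have perp : ∀ t, 0 < t → t < k → d (i + t) ≠ d i ∧ d (i + t) ≠ -d i := fun t t0 tk =>
      ⟨fun c => hk (k - t) (by omega) (i + t) (by omega)
        (by rw [c, show i + t + (k - t) = i + k by omega, e]), hk t tk i (by omega)⟩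
    have same : ∀ t, 0 < t → t < k → d (i + t) = d (i + 1) := fun t t0 tk => by
      have a := perp t t0 tk
      have b := perp 1 one_pos (by omega)
      have c := hk (t - 1) (by omega) (i + 1) (by omega)
      rw [show i + 1 + (t - 1) = i + t by omega] at c
      have u1 := du i (by omega)
      have u2 := du (i + 1) (by omega)
      have u3 := du (i + t) (by omega)
      simp only [unit, ne_eq, Prod.ext_iff, Prod.fst_neg, Prod.snd_neg] at *
      omega
    have line : ∀ t : ℕ, t < k → f (i + 1 + t) = f (i + 1) + (t : ℤ) • d (i + 1) := by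
      intro t
      induction t with
      | zero => simp
      | succ t ih =>
        intro tk
        rw [← add_assoc, hdd, ih (by omega), add_assoc i, add_comm 1 t, same _ (by omega) tk]
        push_cast
        rw [add_smul, one_smul, add_assoc]
    have b := perp 1 one_pos (by omega)
    have ui := du i (by omega)
    refine ⟨(k - 1 : ℕ), by omega, by omega, fun p => f (i + 1) + p.1 • d (i + 1) + p.2 • -d i,
      iso (du _ (by omega)) (by rw [← e]; exact du _ (by omega))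
        (fun c => b.2 c.symm) (fun c => b.1 (neg_injective c).symm) _, ?_⟩
    rintro _ ⟨⟨x, y⟩, (⟨rfl, h1, h2⟩ | ⟨rfl, rfl | rfl⟩), rfl⟩
    · lift x to ℕ using h1
      dsimp only at h2 ⊢
      rw [zero_smul, add_zero, ← line x (by omega)]
      exact fA _ (by omega)
    · dsimp only
      rw [zero_smul, add_zero, one_smul, hdd, add_neg_cancel_right]
      exact fA _ (by omega)
    · dsimp only
      rw [← line _ (by omega), one_smul, ← e, show i + 1 + (k - 1) = i + k by omega, ← hdd]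
      exact fA _ (by omega)
  · right
    push Not at hb
    have hb' : ∀ i < 2 * L, ∀ j < 2 * L, d j ≠ -d i := fun i hi j hj c => by
      rcases le_total i j with l | l
      · exact hb (j - i) i (by omega) (by rwa [show i + (j - i) = j by omega])
      · exact hb (i - j) j (by omega) (by rw [show j + (i - j) = i by omega, c, neg_neg])
    obtain ⟨a, ha, ha'⟩ : ∃ a : Cell, (a = (1, 0) ∨ a = (-1, 0)) ∧ ∀ i < 2 * L, d i ≠ -a := by
      by_cases c : ∃ i < 2 * L, d i = (1, 0)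
      · obtain ⟨i, hi, c⟩ := c
        exact ⟨_, .inl rfl, fun j hj => c ▸ hb' i hi j hj⟩
      · exact ⟨_, .inr rfl, fun j hj w => c ⟨j, hj, w⟩⟩
    obtain ⟨b, hb, hb'⟩ : ∃ b : Cell, (b = (0, 1) ∨ b = (0, -1)) ∧ ∀ i < 2 * L, d i ≠ -b := by
      by_cases c : ∃ i < 2 * L, d i = (0, 1)
      · obtain ⟨i, hi, c⟩ := c
        exact ⟨_, .inl rfl, fun j hj => c ▸ hb' i hi j hj⟩
      · exact ⟨_, .inr rfl, fun j hj w => c ⟨j, hj, w⟩⟩
    obtain ⟨Y, Y0, Ys⟩ : ∃ Y : ℕ → ℤ, Y 0 = 0 ∧ ∀ i, Y (i + 1) = Y i + if d i = a then 1 else 0 :=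
      ⟨fun n => Nat.rec 0 (fun i y => y + if d i = a then 1 else 0) n, rfl, fun _ => rfl⟩
    have hf : ∀ i ≤ 2 * L, f i = f 0 + Y i • a + (i - Y i) • b := by
      intro i
      induction i with
      | zero => simp [Y0]
      | succ i ih =>
        intro hi
        rw [hdd, ih (by omega), Ys]
        split_ifs with c
        · rw [c]; push_cast; module
        · have : d i = b := by
            have := du i (by omega)
            have := ha' i (by omega)
            have := hb' i (by omega)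
            simp only [unit, ne_eq, Prod.ext_iff, Prod.fst_neg, Prod.snd_neg] at *
            omega
          rw [this]; push_cast; module
    refine ⟨fun s => Y (L + s).toNat - Y L, by simp, fun s => ?_,
      fun p => f L + p.1 • a + p.2 • b, iso (by unfold unit; tauto) (by unfold unit; tauto)
        (by rcases ha with rfl | rfl <;> rcases hb with rfl | rfl <;> decide)
        (by rcases ha with rfl | rfl <;> rcases hb with rfl | rfl <;> decide) _, ?_⟩
    · beta_reduce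
      by_cases c : 0 ≤ L + s
      · rw [show (L + (s + 1)).toNat = (L + s).toNat + 1 by omega, Ys]
        split_ifs <;> omega
      · rw [show (L + (s + 1)).toNat = (L + s).toNat by omega]
        exact .inl rfl
    · rintro _ ⟨⟨x, y⟩, ⟨h1, h2⟩, rfl⟩
      dsimp only at h1 h2 ⊢
      rw [abs_le] at h1
      have h3 := fA (L + (x + y)).toNat (by omega)
      rw [hf _ (by omega), show (((L + (x + y)).toNat : ℕ) : ℤ) = L + (x + y) by omega,
        show Y (L + (x + y)).toNat = x + Y L by omega] at h3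
      rw [hf L (by omega)]
      convert h3 using 1
      module

lemma far {T : Set (Set Cell)} (hP : ∀ P ∈ T, IsPoly P)
    (hT : ∀ P ∈ T, ∀ Q ∈ T, Anc P Q → P = Q) (hi : T.Infinite) (N : ℤ) :
    ∃ A ∈ T, ∃ u ∈ A, ∃ v ∈ A, N < d2 u v := by
  by_contra w
  push Not at w
  choose! c hc using fun P (h : P ∈ T) => (hP P h).2.1
  refine hi (Set.Finite.of_injOn (f := fun A => (fun p => p - c A) '' A)
    (t := {B | B ⊆ Set.Icc (-N, -N) (N, N)}) ?_ ?_ (Set.finite_Icc _ _).finite_subsets)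
  · rintro A hA _ ⟨p, hp, rfl⟩
    have := w A hA p hp _ (hc A hA)
    unfold d2 at this
    simp only [Set.mem_Icc, Prod.le_def, Prod.fst_sub, Prod.snd_sub]
    generalize p.1 - (c A).1 = x at *
    generalize p.2 - (c A).2 = y at *
    have := Int.le_self_sq x; have := Int.le_self_sq y
    have := Int.le_self_sq (-x); have := Int.le_self_sq (-y)
    refine ⟨⟨?_, ?_⟩, ?_, ?_⟩ <;> nlinarith [sq_nonneg x, sq_nonneg y]
  · intro A hA B hB e
    refine hT A hA B hB ⟨fun p => p - c A + c B, fun p q => by simp [d2], ?_⟩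
    rintro _ ⟨p, hp, rfl⟩
    obtain ⟨q, hq, e⟩ : p - c A ∈ (fun p => p - c B) '' B := by
      beta_reduce at e
      rw [← e]; exact ⟨p, hp, rfl⟩
    beta_reduce at e ⊢
    rwa [← e, sub_add_cancel]

theorem result (T : Set (Set Cell)) (hP : ∀ P ∈ T, IsPoly P)
    (hT : ∀ P ∈ T, ∀ Q ∈ T, Anc P Q → P = Q) (hW : MakerWins T) : T.Finite := by
  by_contra hi
  by_cases hU : ∃ m : ℤ, 1 ≤ m ∧ ∀ P ∈ T, ¬ Anc P (U m)
  · obtain ⟨m, hm, h⟩ := hU
    exact caseU hP hm h hW
  push Not at hU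
  have main : ∀ L : ℕ, ∃ A ∈ T, (∃ u ∈ A, ∃ v ∈ A, (L : ℤ) < d2 u v) ∧ ∃ X : ℤ → ℤ, X 0 = 0 ∧
      (∀ s, X (s + 1) = X s ∨ X (s + 1) = X s + 1) ∧ Anc (path X L) A := by
    intro L
    obtain ⟨A, hA, u, hu, v, hv, hd⟩ := far hP hT hi ((2 * L : ℤ) ^ 2 + 1)
    refine ⟨A, hA, ⟨u, hu, v, hv, by nlinarith⟩,
      (geo (hP A hA) hu hv L (by omega)).resolve_left ?_⟩
    rintro ⟨m, h1, h2, h3⟩
    obtain ⟨P, hPT, h4⟩ := hU m h1
    obtain rfl := hT P hPT A hA (h4.trans h3)
    obtain ⟨g, hg, h4⟩ := h4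
    rw [← hg] at hd
    have a := h4 ⟨u, hu, rfl⟩
    have b := h4 ⟨v, hv, rfl⟩
    simp only [U, Set.mem_ofPred_eq] at a b
    unfold d2 at hd
    have c1 : ((g u).1 - (g v).1) ^ 2 ≤ (2 * L : ℤ) ^ 2 := sq_le_sq' (by omega) (by omega)
    have c2 : ((g u).2 - (g v).2) ^ 2 ≤ 1 ^ 2 := sq_le_sq' (by omega) (by omega)
    omega
  choose A hA hfar X X0 Xs hX using main
  have bd : ∀ n (s : ℤ), |X n s| ≤ |s| := by
    intro n s
    simp only [abs_eq_max_neg]
    induction s using Int.induction_on with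
    | zero => simp [X0]
    | succ i ih => have := Xs n i; omega
    | pred i ih =>
      have := Xs n (-i - 1)
      rw [sub_add_cancel] at this; omega
  let F : Ultrafilter ℕ := Filter.hyperfilter ℕ
  have lim : ∀ s : ℤ, ∃ x, ∀ᶠ n in F, X n s = x := fun s => by
    obtain ⟨x, -, hx⟩ := (F.map fun n => X n s).eq_pure_of_finite_mem (Set.finite_Icc (-|s|) |s|)
      (by rw [Ultrafilter.mem_map]; exact Filter.univ_mem' fun n => abs_le.1 (bd n s))
    exact ⟨x, by have : {x} ∈ F.map fun n => X n s := by rw [hx]; simp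
                 exact this⟩
  choose Z hZ using lim
  refine casePath hP (X := Z) (fun s => ?_) (fun P hPT L h => ?_) hW
  · obtain ⟨n, h1, h2⟩ := ((hZ s).and (hZ (s + 1))).exists
    rw [← h1, ← h2]; exact Xs n s
  obtain ⟨B, hB⟩ := (((hP P hPT).1.prod (hP P hPT).1).image fun z => d2 z.1 z.2).bddAbove
  have e1 : ∀ᶠ n in F, ∀ s ∈ Set.Icc (-L) L, X n s = Z s :=
    (Filter.eventually_all_finite (Set.finite_Icc _ _)).2 fun s _ => hZ s
  have e2 : ∀ᶠ n : ℕ in F, max L B ≤ n := Filter.hyperfilter_le_cofinite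
    (by rw [Nat.cofinite_eq_atTop]; exact tendsto_natCast_atTop_atTop.eventually_ge_atTop _)
  obtain ⟨n, h1, h2⟩ := (e1.and e2).exists
  have : Anc (path Z L) (path (X n) n) := ⟨id, fun _ _ => rfl, by
    rintro _ ⟨p, ⟨a, b⟩, rfl⟩
    exact ⟨a.trans (by omega), b.trans (h1 _ (abs_le.1 a)).symm⟩⟩
  obtain ⟨u, hu, v, hv, hd⟩ := hfar n
  rw [← hT P hPT _ (hA n) ((h.trans this).trans (hX n))] at hu hv
  have : d2 u v ≤ B := hB ⟨(u, v), ⟨hu, hv⟩, rfl⟩
  omega

end Pool.Agent.Results.MP_0f5321_co.No
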